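import Pool.Agent.H92.S2.LUT2
import Pool.Agent.H16.SM.LED
import Pool.Agent.H62.SFU.UTH

/-!
Module UTH2: dimension of the space of sections divisible by `P ^ i`.
-/

set_option autoImplicit false

namespace Pool.Agent.H45.SFV

open MvPolynomial
open Pool.Agent.H84.SM (dp cr dt)
open Pool.Agent.H3.SF Pool.Agent.H3.S2 Pool.Agent.H92.SF Pool.Agent.H92.S2

open Pool.Agent.H62.SFU (ledk kro_pow Xs mem_Xs hm_mul' hm_pow' ex ex0 ex1 ex_eq hom_coeff)

theorem pf_UTH2 (hDAT : T_DAT2) (hFRK : T_FRK2) (hDEG : T_DEG2) (hFAC : T_FAC2) (hUTW : T_UTW2) : T_UTH2 := by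
  classical
  intro k F _ _ _ _ _ u dd δ j0 c0 J m G hG w τP P hP hTP a0 hcst g i hC n j2 τ W hj2 hW
  obtain ⟨hD, hu0, hJ0, hmG, hu1, hJ1, -, -, hIg, -⟩ := hDAT k F u dd δ j0 c0 J m G hG.toBw
  obtain ⟨hind, -, hE, hIK, -, -⟩ := hFRK k F u dd δ j0 c0 J m G hG.toBw
  set jP := P.natDegree with hjP
  set cst := cf u dd J m G P jP a0 with hcst_def
  have hPi : P ^ i ≠ 0 := pow_ne_zero _ hP
  have h3w : 3 * jP ≤ w := by
    by_contra h
    have h1 := (hTP.1 jP).2 (by omega)
    exact hP (Polynomial.leadingCoeff_eq_zero.mp h1)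
  by_cases hn : n < w * i
  · have hbot : W = ⊥ := by
      rw [Submodule.eq_bot_iff]
      intro V hV
      by_contra hV0
      obtain ⟨h1, -, N, hN⟩ := hW V hV
      rw [hN] at h1 hV0
      have h2 := (hFAC k F u dd δ j0 c0 J m G hG.toBw n w i τ τP P N hTP h1 hV0).1
      omega
    rw [hbot]
    refine ⟨inferInstance, ?_⟩
    rw [finrank_bot]
    unfold SS
    rw [if_pos hn]
    simp
  set n' := n - w * i with hn'
  -- the quotient
  let dv : W →ₗ[kap k u] Q2 F :=
    { toFun := fun V => Classical.choose (hW V.1 V.2).2.2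
      map_add' := by
        intro a b
        apply mul_left_cancel₀ hPi
        rw [mul_add, ← Classical.choose_spec (hW a.1 a.2).2.2,
          ← Classical.choose_spec (hW b.1 b.2).2.2,
          ← Classical.choose_spec (hW (a + b).1 (a + b).2).2.2]
        rfl
      map_smul' := by
        intro r a
        apply mul_left_cancel₀ hPi
        rw [RingHom.id_apply, mul_smul_comm, ← Classical.choose_spec (hW a.1 a.2).2.2,
          ← Classical.choose_spec (hW (r • a).1 (r • a).2).2.2]
        rfl }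
  have hdv : ∀ V : W, (V : Q2 F) = P ^ i * dv V := fun V =>
    Classical.choose_spec (hW V.1 V.2).2.2
  have hTN : ∀ V : W, Tw u dd n' (τ - i * τP) (dv V) := by
    intro V
    by_cases hV0 : (V : Q2 F) = 0
    · have h1 : dv V = 0 := by
        have h2 := hdv V
        rw [hV0] at h2
        rcases mul_eq_zero.mp h2.symm with h3 | h3
        · exact absurd h3 hPi
        · exact h3
      rw [h1]
      refine ⟨fun j => ⟨fun _ => ?_, fun _ => ?_⟩, fun j c => ?_⟩
      · rw [Polynomial.coeff_zero]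
        exact isHomogeneous_zero _ _ _
      · simp
      · unfold Hm
        simp
    · have h1 := (hW V.1 V.2).1
      rw [hdv V] at h1 hV0
      exact (hFAC k F u dd δ j0 c0 J m G hG.toBw n w i τ τP P _ hTP h1 hV0).2
  -- coefficients
  let cfl : ℕ → (Fin 2 →₀ ℕ) → Q2 F →ₗ[kap k u] F := fun s a =>
    { toFun := fun N => (N.coeff s).coeff a
      map_add' := by
        intro x y
        rw [Polynomial.coeff_add, coeff_add]
      map_smul' := by
        intro r x
        have hr : r • x = Polynomial.C (C (algebraMap (kap k u) F r)) * x := by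
          rw [Algebra.smul_def]
          rfl
        rw [hr, Polynomial.coeff_C_mul, coeff_C_mul]
        rfl }
  let φ : (ℕ × ℕ) → W →ₗ[kap k u] F := fun x => (cfl x.1 (ex x.2 (n' - 3 * x.1 - x.2))).comp dv
  have hφ : ∀ (s b : ℕ) (V : W), φ (s, b) V = ((dv V).coeff s).coeff (ex b (n' - 3 * s - b)) :=
    fun _ _ _ => rfl
  -- the constants
  let lam : (ℕ × ℕ) → F := fun x => cst ^ i * G ^ (x.1 + x.2) *
    aeval u J ^ (4 * (n' - 3 * x.1)) * u 0 ^ (n' - 3 * x.1)
  have hlam : ∀ x, lam x ≠ 0 := fun x =>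
    mul_ne_zero (mul_ne_zero (mul_ne_zero (pow_ne_zero _ hcst) (pow_ne_zero _ hG.ne))
      (pow_ne_zero _ hJ0)) (pow_ne_zero _ (hu0 0))
  let dg : ℤ := τP + w * ((m : ℤ) + 2 * j0 - 2) - jP * (2 * m + 6 * j0 - 3)
  let ee : (ℕ × ℕ) → ℤ := fun x => (τ - i * τP - 2 * n' + 3 * x.1) + (i * dg +
    ((x.1 + x.2 : ℕ) : ℤ) * m + ((4 * (n' - 3 * x.1) : ℕ) : ℤ) * j0 + ((n' - 3 * x.1 : ℕ) : ℤ) * 1)
  let y : ℕ × (Fin 3 →₀ ℕ) → F := fun t => (cf u dd J m G P t.1 t.2 / cst) ^ i
  let XX : (ℕ × ℕ) → Submodule (kap k u) F := fun x => Xs u (eu u dd) hE y (ee x)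
  let Fs : (ℕ × ℕ) → Submodule (kap k u) F := fun x =>
    (XX x).comap (LinearMap.mulLeft (kap k u) (lam x))
  have hXX : ∀ x, Module.Finite (kap k u) (XX x) ∧
      (Module.finrank (kap k u) (XX x) : ℤ) ≤ max 0 (δ * (ee x + 1) - i * g) := by
    intro x
    apply hC (ee x) (XX x)
    intro z hz
    exact ⟨hz.1, hz.2.1, fun j a => hz.2.2 (j, a)⟩
  let ρ : ∀ x, Fs x →ₗ[kap k u] XX x := fun x =>
    (LinearMap.mulLeft (kap k u) (lam x)).restrict (fun z hz => hz)
  have hρ : ∀ x, Function.Injective (ρ x) := by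
    intro x z z' hzz
    have h := congrArg Subtype.val hzz
    exact Subtype.ext (mul_left_cancel₀ (hlam x) h)
  have hFfin : ∀ x, Module.Finite (kap k u) (Fs x) := by
    intro x
    haveI := (hXX x).1
    exact Module.Finite.of_injective (ρ x) (hρ x)
  have hFrk : ∀ x, (Module.finrank (kap k u) (Fs x) : ℤ) ≤ max 0 (δ * (ee x + 1) - i * g) := by
    intro x
    haveI := (hXX x).1
    refine le_trans ?_ (hXX x).2
    exact_mod_cast LinearMap.finrank_le_finrank_of_injective (hρ x)
  -- the index set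
  set S : Finset (ℕ × ℕ) := (Finset.range (n' / 3 + 1)).biUnion fun s =>
    (Finset.range (n' - 3 * s + 1)).image fun b => (s, b) with hS
  have hmS : ∀ s b : ℕ, (s, b) ∈ S ↔ 3 * s + b ≤ n' := by
    intro s b
    simp only [hS, Finset.mem_biUnion, Finset.mem_range, Finset.mem_image, Prod.mk.injEq]
    constructor
    · rintro ⟨s', h1, b', h2, h3, h4⟩
      omega
    · intro h
      exact ⟨s, by omega, b, by omega, rfl, rfl⟩
  have hsum : ∀ f : ℕ × ℕ → ℤ, ∑ x ∈ S, f x =
      ∑ s ∈ Finset.range (n' / 3 + 1), ∑ b ∈ Finset.range (n' - 3 * s + 1), f (s, b) := by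
    intro f
    rw [hS, Finset.sum_biUnion]
    · refine Finset.sum_congr rfl fun s _ => ?_
      rw [Finset.sum_image]
      intro b _ b' _ h
      exact (Prod.mk.inj h).2
    · intro s _ s' _ hss
      rw [Function.onFun, Finset.disjoint_left]
      intro x hx hx'
      rw [Finset.mem_image] at hx hx'
      obtain ⟨b, -, h1⟩ := hx
      obtain ⟨b', -, h2⟩ := hx'
      apply hss
      rw [← h1] at h2
      exact (Prod.mk.inj h2).1.symm
  -- vanishing
  have hvan : ∀ (V : W) (s : ℕ), (∀ b, 3 * s + b ≤ n' → φ (s, b) V = 0) →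
      (dv V).coeff s = 0 := by
    intro V s h
    rcases Nat.lt_or_ge n' (3 * s) with h1 | h1
    · exact ((hTN V).1 s).2 h1
    · ext a
      rw [coeff_zero]
      apply hom_coeff (((hTN V).1 s).1 h1)
      intro b hb
      exact h b (by omega)
  let κ : ℕ × ℕ → (ℕ ×ₗ ℕ)ᵒᵈ := fun x => OrderDual.toDual (toLex x)
  have hκ : Function.Injective κ := fun x y h => h
  have hκlt : ∀ s b s' b' : ℕ, κ (s', b') < κ (s, b) ↔ s < s' ∨ (s = s' ∧ b < b') := by
    intro s b s' b'
    change toLex (s, b) < toLex (s', b') ↔ _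
    rw [Prod.Lex.toLex_lt_toLex]
  obtain ⟨r1, r2⟩ := ledk (k := kap k u) (V := W) (L := F) S κ hκ φ Fs hFfin
    (by
      intro V hV
      have h1 : dv V = 0 := by
        ext1 s
        rw [Polynomial.coeff_zero]
        apply hvan
        intro b hb
        exact hV (s, b) ((hmS s b).2 hb)
      apply Subtype.ext
      rw [hdv V, h1, mul_zero]
      rfl)
    (by
      rintro V ⟨s, b⟩ hx hV
      have hsb : 3 * s + b ≤ n' := (hmS s b).1 hx
      have hN := hTN V
      set N := dv V with hNd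
      have e1 : ∀ j, s < j → N.coeff j = 0 := by
        intro j hj
        apply hvan
        intro b' hb'
        exact hV (j, b') ((hmS j b').2 hb') ((hκlt _ _ _ _).2 (Or.inl hj))
      have e2 : ∀ a' : Fin 2 →₀ ℕ, b < a' 0 → (N.coeff s).coeff a' = 0 := by
        intro a' ha'
        by_contra hne
        have h1 := ((hN.1 s).1 (by omega)) hne
        rw [Finsupp.weight_apply, Finsupp.sum_fintype _ _ (by simp)] at h1
        simp only [Fin.sum_univ_two, Pi.one_apply, smul_eq_mul, mul_one] at h1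
        have h2 := hV (s, a' 0) ((hmS s _).2 (by omega)) ((hκlt _ _ _ _).2 (Or.inr ⟨rfl, ha'⟩))
        rw [hφ] at h2
        have h3 : n' - 3 * s - a' 0 = a' 1 := by omega
        rw [h3, ex_eq] at h2
        exact hne h2
      have hcoef : φ (s, b) V = (N.coeff s).coeff (ex b (n' - 3 * s - b)) := rfl
      set c := φ (s, b) V with hc
      have hint : ∀ (j' : ℕ) (m' : Fin 3 →₀ ℕ), ItK k u (cf u dd J m G P j' m' ^ i * c *
          G ^ (s + b) * aeval u J ^ (4 * (n' - 3 * s)) * u 0 ^ (n' - 3 * s)) := by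
        intro j' m'
        set d := cf u dd J m G P j' m' ^ i with hd
        have h1 : ∀ j a, ItK k u (d * cf u dd J m G N j a) := by
          apply kro_pow
          intro j a
          have h2 := (hW V.1 V.2).2.1 j a
          unfold cf at h2
          rw [hdv V, map_mul, map_pow] at h2
          exact h2
        have hq : ∀ j a, (((cq d : Q2 F) * N).coeff j).coeff a = d * (N.coeff j).coeff a := by
          intro j a
          change ((Polynomial.C (C d) * N).coeff j).coeff a = _
          rw [Polynomial.coeff_C_mul, coeff_C_mul]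
        have hqc : ∀ j, ((cq d : Q2 F) * N).coeff j = C d * N.coeff j := by
          intro j
          change (Polynomial.C (C d) * N).coeff j = _
          rw [Polynomial.coeff_C_mul]
        have hPs : Ps u dd J m G (cq d * N) = Polynomial.C (C d) * Ps u dd J m G N := by
          rw [map_mul]
          congr 1
          simp [Ps, Psi, ev2, cc, cq]
        have h3 := hUTW k F u dd δ j0 c0 J m G hG n' (cq d * N) ?_ ?_ s
          (ex b (n' - 3 * s - b)) ?_ ?_ ?_
        · rw [hq, ← hcoef, ex0] at h3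
          exact h3
        · intro j
          refine ⟨fun h => ?_, fun h => ?_⟩
          · rw [hqc]
            have h4 := (isHomogeneous_C (Fin 2) d).mul ((hN.1 j).1 h)
            rwa [zero_add] at h4
          · rw [hqc, (hN.1 j).2 h, mul_zero]
        · intro j a
          have h4 := h1 j a
          unfold cf at h4 ⊢
          rw [hPs, Polynomial.coeff_C_mul, coeff_C_mul]
          exact h4
        · rw [ex0, ex1]
          omega
        · intro j hj
          rw [hqc, e1 j hj, mul_zero]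
        · intro a' ha'
          rw [ex0] at ha'
          rw [hq, e2 a' ha', mul_zero]
      change lam (s, b) * c ∈ Xs u (eu u dd) hE y (ee (s, b))
      rw [mem_Xs]
      have hlamc : lam (s, b) * c = cst ^ i * c * G ^ (s + b) * aeval u J ^ (4 * (n' - 3 * s)) *
          u 0 ^ (n' - 3 * s) := by
        change cst ^ i * G ^ (s + b) * aeval u J ^ (4 * (n' - 3 * s)) * u 0 ^ (n' - 3 * s) * c = _
        ring
      refine ⟨?_, ?_, ?_⟩
      · have k1 : Hm k (eu u dd) (τ - i * τP - 2 * n' + 3 * s) c := by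
          rw [hcoef]
          exact hN.2 s _
        have k2 : Hm k (eu u dd) dg cst :=
          (hDEG k F u dd δ j0 c0 J m G hG.toBw w τP P hTP).1 jP a0
        have k3 := hm_mul' (hm_mul' (hm_mul' (hm_pow' k2 i) (hm_pow' hG.hom (s + b)))
          (hm_pow' hJ1 (4 * (n' - 3 * s)))) (hm_pow' (hu1 0) (n' - 3 * s))
        have k4 := hm_mul' k1 k3
        rw [mul_comm c] at k4
        exact k4
      · rw [hlamc]
        exact hint jP a0
      · rintro ⟨j', m'⟩
        have h5 : lam (s, b) * c * y (j', m') = cf u dd J m G P j' m' ^ i * c *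
            G ^ (s + b) * aeval u J ^ (4 * (n' - 3 * s)) * u 0 ^ (n' - 3 * s) := by
          change lam (s, b) * c * (cf u dd J m G P j' m' / cst) ^ i = _
          rw [hlamc, div_pow]
          have h6 : cst ^ i ≠ 0 := pow_ne_zero _ hcst
          field_simp
        rw [h5]
        exact hint j' m')
  refine ⟨r1, ?_⟩
  unfold SS
  rw [if_neg hn]
  have r3 : (Module.finrank (kap k u) W : ℤ) ≤
      ∑ x ∈ S, (Module.finrank (kap k u) (Fs x) : ℤ) := by exact_mod_cast r2
  refine r3.trans ?_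
  have hgoal := hsum (fun x => max 0 (δ * (τ + m * ((x.1 : ℤ) + x.2) +
    i * m * ((w : ℤ) - 2 * jP) + 2 * j2 * n + 1) - i * g))
  simp only at hgoal
  rw [← hn', ← hgoal]
  refine Finset.sum_le_sum ?_
  rintro ⟨s, b⟩ hx
  have hsb : 3 * s + b ≤ n' := (hmS s b).1 hx
  refine (hFrk (s, b)).trans (max_le_max le_rfl ?_)
  have hle : ee (s, b) + 1 ≤ τ + m * ((s : ℤ) + b) + i * m * ((w : ℤ) - 2 * jP) +
      2 * j2 * n + 1 := by
    have q1 : ((4 * (n' - 3 * s) : ℕ) : ℤ) = 4 * (n' - 3 * s) := by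
      push_cast [Nat.cast_sub (show 3 * s ≤ n' by omega)]
      ring
    have q2 : ((n' - 3 * s : ℕ) : ℤ) = n' - 3 * s := by
      push_cast [Nat.cast_sub (show 3 * s ≤ n' by omega)]
      ring
    have q3 : (n' : ℤ) = n - w * i := by
      rw [hn']
      push_cast [Nat.cast_sub (show w * i ≤ n by omega)]
      ring
    have q4 : (0 : ℤ) ≤ i * ((w : ℤ) - 3 * jP) := by
      apply mul_nonneg (Int.natCast_nonneg i)
      have : (3 * jP : ℤ) ≤ w := by exact_mod_cast h3w
      linarith
    have q5 : (0 : ℤ) ≤ i * (w : ℤ) := by positivity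
    have q6 : (0 : ℤ) ≤ 6 * j0 * (i * jP + 2 * s) := by positivity
    have q7 : (0 : ℤ) ≤ n' := Int.natCast_nonneg _
    have q9 : (0 : ℤ) ≤ 2 * j0 * w * i := by positivity
    have q10 : (4 : ℤ) * j0 * n ≤ 2 * j2 * n := by
      have e1 : (2 : ℤ) * j0 ≤ j2 := by exact_mod_cast hj2
      have e2 : (0 : ℤ) ≤ n := Int.natCast_nonneg _
      nlinarith
    change τ - i * τP - 2 * n' + 3 * s + (i * (τP + w * ((m : ℤ) + 2 * j0 - 2) -
      jP * (2 * m + 6 * j0 - 3)) + ((s + b : ℕ) : ℤ) * m + ((4 * (n' - 3 * s) : ℕ) : ℤ) * j0 +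
      ((n' - 3 * s : ℕ) : ℤ) * 1) + 1 ≤ _
    rw [q1, q2]
    push_cast
    have q8 : τ + m * ((s : ℤ) + b) + i * m * ((w : ℤ) - 2 * jP) + 4 * j0 * n + 1 -
        (τ - i * τP - 2 * n' + 3 * s + (i * (τP + w * ((m : ℤ) + 2 * j0 - 2) -
        jP * (2 * m + 6 * j0 - 3)) + ((s : ℤ) + b) * m + (4 * ((n' : ℤ) - 3 * s)) * j0 +
        ((n' : ℤ) - 3 * s) * 1) + 1) =
        i * ((w : ℤ) - 3 * jP) + i * w + n' + 6 * j0 * (i * jP + 2 * s) + 2 * j0 * w * i +
          4 * j0 * (n - w * i - n') := by ring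
    rw [q3] at q8 ⊢
    rw [q3] at q7
    linarith
  have hδ : (0 : ℤ) ≤ δ := Int.natCast_nonneg δ
  have := mul_le_mul_of_nonneg_left hle hδ
  linarith

end Pool.Agent.H45.SFV
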